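import Pool.Agent.W952.LP.Defs

/-!
# A compact space with a real-valued map with totally disconnected fibres has dimension at most one
-/

set_option autoImplicit false

namespace Pool.Agent.Helper324_LP

open Topology Set Metric
open Pool.Agent.W952.LP (DimLE)

/-- A closed totally disconnected subset of a compact metric space is covered by a finite pairwise
disjoint family of open sets which refines a given cover. -/
theorem fib_cover {X : Type} [MetricSpace X] [CompactSpace X] {F : Set X} (hF : IsClosed F)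
    (hd : IsTotallyDisconnected F) {ι : Type} (U : ι → Set X) (hU : ∀ i, IsOpen (U i))
    (hc : (⋃ i, U i) = univ) :
    ∃ W : Set (Set X), W.Finite ∧ (∀ w ∈ W, IsOpen w) ∧ (∀ w ∈ W, ∃ i, w ⊆ U i) ∧
      F ⊆ ⋃₀ W ∧ ∀ w ∈ W, ∀ w' ∈ W, ∀ x, x ∈ w → x ∈ w' → w = w' := by
  have : TotallyDisconnectedSpace F := totallyDisconnectedSpace_subtype_iff.2 hd
  have : CompactSpace F := isCompact_iff_compactSpace.1 hF.isCompact
  -- clopen neighbourhoods
  have h1 : ∀ x : F, ∃ i, ∃ C : Set F, IsClopen C ∧ x ∈ C ∧ C ⊆ Subtype.val ⁻¹' (U i) := by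
    intro x
    have hx : (x : X) ∈ ⋃ i, U i := by rw [hc]; trivial
    obtain ⟨i, hi⟩ := mem_iUnion.1 hx
    obtain ⟨C, h2, h3, h4⟩ := compact_exists_isClopen_in_isOpen
      ((hU i).preimage continuous_subtype_val) (x := x) hi
    exact ⟨i, C, h2, h3, h4⟩
  choose i C hC1 hC2 hC3 using h1
  obtain ⟨t, ht⟩ := isCompact_univ.elim_finite_subcover C (fun x => (hC1 x).isOpen)
    (fun x _ => mem_iUnion.2 ⟨x, hC2 x⟩)
  obtain ⟨E, hE1, -, hE3, hE4, hE5⟩ := exists_clopen_partition_of_clopen_cover (X := F) (I := t)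
    (Z := fun _ => ∅) (D := fun x => C x) (fun _ => isClosed_empty) (fun x => hC1 x)
    (fun _ => empty_subset _) (fun _ _ _ _ _ => disjoint_bot_left)
  -- the images in `X`
  have hK : ∀ s : t, IsCompact (Subtype.val '' (E s) : Set X) := fun s =>
    ((hE1 s).isClosed.isCompact).image continuous_subtype_val
  have hdis : ∀ s s' : t, s ≠ s' → ∃ δ : ℝ, 0 < δ ∧
      Disjoint (thickening δ (Subtype.val '' (E s) : Set X))
        (thickening δ (Subtype.val '' (E s') : Set X)) := by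
    intro s s' hne
    refine Disjoint.exists_thickenings ?_ (hK s) (hK s').isClosed
    exact (hE5 (mem_univ s) (mem_univ s') hne).image Subtype.val_injective.injOn
      (subset_univ _) (subset_univ _)
  have hdis' : ∀ s s' : t, ∃ δ : ℝ, 0 < δ ∧ (s ≠ s' →
      Disjoint (thickening δ (Subtype.val '' (E s) : Set X))
        (thickening δ (Subtype.val '' (E s') : Set X))) := by
    intro s s'
    by_cases h : s = s'
    · exact ⟨1, one_pos, fun h' => absurd h h'⟩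
    · obtain ⟨δ, h2, h3⟩ := hdis s s' h
      exact ⟨δ, h2, fun _ => h3⟩
  choose δ hδ1 hδ2 using hdis'
  obtain ⟨ε, hε1, hε2⟩ : ∃ ε : ℝ, 0 < ε ∧ ∀ s s', ε ≤ δ s s' := by
    by_cases hne : Nonempty (t × t)
    · obtain ⟨p, hp⟩ := Finite.exists_min (fun p : t × t => δ p.1 p.2)
      exact ⟨δ p.1 p.2, hδ1 _ _, fun s s' => hp (s, s')⟩
    · exact ⟨1, one_pos, fun s s' => absurd ⟨(s, s')⟩ hne⟩
  refine ⟨range fun s : t => thickening ε (Subtype.val '' (E s) : Set X) ∩ U (i s),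
    finite_range _, ?_, ?_, ?_, ?_⟩
  · rintro _ ⟨s, rfl⟩
    exact isOpen_thickening.inter (hU _)
  · rintro _ ⟨s, rfl⟩
    exact ⟨i s, inter_subset_right⟩
  · intro x hx
    have h2 : (⟨x, hx⟩ : F) ∈ ⋃ y ∈ t, C y := ht (mem_univ _)
    have h3 : (⟨x, hx⟩ : F) ∈ ⋃ s : t, C s := by
      simp only [mem_iUnion] at h2 ⊢
      obtain ⟨y, hy, hy2⟩ := h2
      exact ⟨⟨y, hy⟩, hy2⟩
    obtain ⟨s, hs⟩ := mem_iUnion.1 (hE4 h3)
    refine mem_sUnion.2 ⟨_, ⟨s, rfl⟩, ?_, hC3 s (hE3 s hs)⟩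
    exact self_subset_thickening hε1 _ ⟨⟨x, hx⟩, hs, rfl⟩
  · rintro _ ⟨s, rfl⟩ _ ⟨s', rfl⟩ x hx hx'
    by_contra hne
    have hss : s ≠ s' := fun h => hne (by rw [h])
    have h2 := (hδ2 s s' hss).mono (thickening_mono (hε2 s s') _) (thickening_mono (hε2 s s') _)
    exact Set.disjoint_left.1 h2 hx.1 hx'.1

theorem dim_le_one {X : Type} [MetricSpace X] [CompactSpace X] (f : X → ℝ) (hf : Continuous f)
    (hfib : ∀ y, IsTotallyDisconnected (f ⁻¹' {y})) : DimLE X 1 := by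
  intro ι _ U hU hc
  -- the families over the points of the line
  have h1 : ∀ y : ℝ, ∃ W : Set (Set X), W.Finite ∧ (∀ w ∈ W, IsOpen w) ∧ (∀ w ∈ W, ∃ i, w ⊆ U i) ∧
      (∀ w ∈ W, ∀ w' ∈ W, ∀ x, x ∈ w → x ∈ w' → w = w') ∧
      ∃ A : Set ℝ, IsOpen A ∧ y ∈ A ∧ f ⁻¹' A ⊆ ⋃₀ W := by
    intro y
    obtain ⟨W, h2, h3, h4, h5, h6⟩ := fib_cover (isClosed_singleton.preimage hf) (hfib y) U hU hc
    refine ⟨W, h2, h3, h4, h6, (f '' (⋃₀ W)ᶜ)ᶜ, ?_, ?_, ?_⟩
    · have h7 : IsCompact (⋃₀ W)ᶜ := (isOpen_sUnion h3).isClosed_compl.isCompact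
      exact (h7.image hf).isClosed.isOpen_compl
    · rintro ⟨x, hx, hxy⟩
      exact hx (h5 hxy)
    · intro x hx
      by_contra hc'
      exact hx ⟨x, hc', rfl⟩
  choose W hW1 hW2 hW3 hW4 A hA1 hA2 hA3 using h1
  -- the range is bounded
  obtain ⟨R, hR⟩ : ∃ R : ℕ, ∀ x, |f x| ≤ R := by
    obtain ⟨C, hC⟩ := (isCompact_range hf).isBounded.exists_norm_le
    obtain ⟨R, hR⟩ := exists_nat_ge C
    exact ⟨R, fun x => (hC (f x) ⟨x, rfl⟩).trans hR⟩
  obtain ⟨δ, hδ, hδ2⟩ := lebesgue_number_lemma_of_metric (s := Icc (-(R : ℝ)) R) (c := A)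
    isCompact_Icc hA1 (fun y _ => mem_iUnion.2 ⟨y, hA2 y⟩)
  obtain ⟨n, hn0, hn⟩ : ∃ n : ℕ, 0 < n ∧ 1 / (n : ℝ) < δ := by
    obtain ⟨n, hn⟩ := exists_nat_one_div_lt hδ
    exact ⟨n + 1, Nat.succ_pos n, by exact_mod_cast hn⟩
  have hn0' : (0 : ℝ) < n := by exact_mod_cast hn0
  have h2 : ∀ j : ℤ, ∃ y : ℝ, j ∈ Icc (-(R * n : ℕ) : ℤ) (R * n : ℕ) →
      ball ((j : ℝ) / n) δ ⊆ A y := by
    intro j
    by_cases hj : j ∈ Icc (-(R * n : ℕ) : ℤ) (R * n : ℕ)
    · obtain ⟨y, hy⟩ := hδ2 ((j : ℝ) / n) (by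
        have h3 : (-(R * n : ℕ) : ℝ) ≤ j := by exact_mod_cast hj.1
        have h4 : (j : ℝ) ≤ (R * n : ℕ) := by exact_mod_cast hj.2
        push_cast at h3 h4
        constructor
        · rw [le_div_iff₀ hn0']; linarith
        · rw [div_le_iff₀ hn0']; linarith)
      exact ⟨y, fun _ => hy⟩
    · exact ⟨0, fun h => absurd h hj⟩
  choose y hy using h2
  let κ : Type := {p : ℤ × Set X // p.1 ∈ Icc (-(R * n : ℕ) : ℤ) (R * n : ℕ) ∧ p.2 ∈ W (y p.1)}
  have hκ : Finite κ := by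
    have h3 : {p : ℤ × Set X | p.1 ∈ Icc (-(R * n : ℕ) : ℤ) (R * n : ℕ) ∧ p.2 ∈ W (y p.1)}.Finite := by
      refine Finite.subset ((finite_Icc (-(R * n : ℕ) : ℤ) (R * n : ℕ)).biUnion
        (t := fun j => (fun w => (j, w)) '' (W (y j))) fun j _ => (hW1 (y j)).image _) ?_
      rintro ⟨j, w⟩ ⟨h4, h5⟩
      exact mem_iUnion₂.2 ⟨j, h4, w, h5, rfl⟩
    exact h3.to_subtype
  refine ⟨κ, hκ, fun k => f ⁻¹' (ball ((k.1.1 : ℝ) / n) (1 / n)) ∩ k.1.2, ?_, ?_, ?_, ?_⟩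
  · intro k
    exact (isOpen_ball.preimage hf).inter (hW2 _ _ k.2.2)
  · refine eq_univ_of_forall fun x => ?_
    have hx := abs_le.1 (hR x)
    have h3 := Int.floor_le (f x * n)
    have h4 := Int.lt_floor_add_one (f x * n)
    have hj : ⌊f x * n⌋ ∈ Icc (-(R * n : ℕ) : ℤ) (R * n : ℕ) := by
      constructor
      · rw [Int.le_floor]
        push_cast
        nlinarith
      · have h5 : (⌊f x * n⌋ : ℝ) ≤ ((R * n : ℕ) : ℝ) := by
          push_cast
          nlinarith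
        exact_mod_cast h5
    have hb : f x ∈ ball ((⌊f x * n⌋ : ℝ) / n) (1 / n) := by
      rw [mem_ball, Real.dist_eq]
      have e : f x - (⌊f x * n⌋ : ℝ) / n = (f x * n - ⌊f x * n⌋) / n := by
        field_simp
      rw [e, abs_div, abs_of_pos hn0', abs_of_nonneg (by linarith),
        div_lt_div_iff_of_pos_right hn0']
      linarith
    have h5 : x ∈ ⋃₀ W (y ⌊f x * n⌋) := by
      refine hA3 _ ?_
      exact hy _ hj (ball_subset_ball hn.le hb)
    obtain ⟨w, hw, hxw⟩ := h5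
    exact mem_iUnion.2 ⟨⟨(⌊f x * n⌋, w), hj, hw⟩, hb, hxw⟩
  · intro k
    obtain ⟨i, hi⟩ := hW3 _ _ k.2.2
    exact ⟨i, inter_subset_right.trans hi⟩
  · intro x
    refine (Set.ncard_le_ncard_of_injOn (fun k : κ => k.1.1)
      (t := {⌊f x * n⌋, ⌊f x * n⌋ + 1}) ?_ ?_ (Set.toFinite _)).trans ?_
    · intro k hk
      have h3 : f x ∈ ball ((k.1.1 : ℝ) / n) (1 / n) := hk.1
      rw [mem_ball, Real.dist_eq] at h3
      have e : f x - (k.1.1 : ℝ) / n = (f x * n - k.1.1) / n := by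
        field_simp
      rw [e, abs_div, abs_of_pos hn0', div_lt_div_iff_of_pos_right hn0', abs_lt] at h3
      have h4 := Int.floor_le (f x * n)
      have h5 := Int.lt_floor_add_one (f x * n)
      have h6 : ⌊f x * n⌋ < k.1.1 + 1 := by
        have : (⌊f x * n⌋ : ℝ) < k.1.1 + 1 := by linarith
        exact_mod_cast this
      have h7 : k.1.1 < ⌊f x * n⌋ + 2 := by
        have : (k.1.1 : ℝ) < ⌊f x * n⌋ + 2 := by linarith
        exact_mod_cast this
      simp only [mem_insert_iff, mem_singleton_iff]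
      omega
    · rintro ⟨⟨j, w⟩, hj, hw⟩ hk ⟨⟨j', w'⟩, hj', hw'⟩ hk' hjj
      change j = j' at hjj
      subst hjj
      have h3 : w = w' := hW4 _ w hw w' hw' x hk.2 hk'.2
      subst h3
      rfl
    · refine (Set.ncard_insert_le _ _).trans ?_
      rw [Set.ncard_singleton]

end Pool.Agent.Helper324_LP
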