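import Pool.Agent.Helper324_LP.Space
import Pool.Agent.W923.LQ.Val
import Pool.Agent.W585.LQ.NM

/-!
# The dense sequence
-/

set_option autoImplicit false

namespace Pool.Agent.Helper324_LP

open BoundedContinuousFunction Pool.Agent.W361.LQ Topology Filter
open Pool.Agent.Helper227 Pool.Agent.H685R3

/-- The numerator of the distance to `1/3`. -/
def tau (A l : ℕ) : ℕ := tr (3 * A + 2 * 2 ^ l) (3 * 2 ^ l)

open Classical in
/-- The numerator of the radius. -/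
noncomputable def nn (T : ℕ → ℕ → Bool) (A l n : ℕ) : ℕ :=
  if h : ∃ y, T n y = true then min (2 ^ l) (2 ^ (Nat.find h + n) * tau A l) else 2 ^ l

/-- The code of the point number `k`. -/
noncomputable def sqq (T : ℕ → ℕ → Bool) (k : ℕ) : Cd :=
  (k.unpair.1, k.unpair.2,
    (List.range k.unpair.2).map fun n => (0, 2 ^ k.unpair.2 - nn T k.unpair.1 k.unpair.2 n))

theorem three_pow (l : ℕ) : ¬ 3 ∣ 2 ^ l := by
  intro h
  have h1 : 3 ∣ 2 := Nat.Prime.dvd_of_dvd_pow Nat.prime_three h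
  omega

theorem tau_pos (A l : ℕ) : 1 ≤ tau A l := by
  have h0 : 0 < 3 * 2 ^ l := by positivity
  have h1 : (3 * A + 2 * 2 ^ l) % (3 * 2 ^ l) < 3 * 2 ^ l := Nat.mod_lt _ h0
  have h2 : (3 * A + 2 * 2 ^ l) % (3 * 2 ^ l) ≠ 0 := by
    intro h
    have h3 : 3 * 2 ^ l ∣ 3 * A + 2 * 2 ^ l := Nat.dvd_of_mod_eq_zero h
    have h4 : 3 ∣ 3 * A + 2 * 2 ^ l := (Dvd.intro _ rfl).trans h3
    have h5 : 3 ∣ 2 * 2 ^ l := (Nat.dvd_add_right (Dvd.intro _ rfl)).1 h4
    rw [← pow_succ'] at h5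
    exact three_pow _ h5
  unfold tau tr
  omega

theorem norm_dyadic (A l : ℕ) :
    3 * ‖((((A : ℝ) / 2 ^ l : ℝ)) : UnitAddCircle) - third‖ = (tau A l : ℝ) / 2 ^ l := by
  have h0 : 0 < 3 * 2 ^ l := by positivity
  have h1 := Pool.Agent.W923.LQ.norm_div (3 * A + 2 * 2 ^ l) (3 * 2 ^ l) h0
  have h2 : ((((A : ℝ) / 2 ^ l : ℝ)) : UnitAddCircle) - third =
      (((((3 * A + 2 * 2 ^ l : ℕ) : ℝ) / ((3 * 2 ^ l : ℕ) : ℝ) : ℝ)) : UnitAddCircle) := by
    unfold third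
    rw [← AddCircle.coe_sub]
    have h3 : (((3 * A + 2 * 2 ^ l : ℕ) : ℝ) / ((3 * 2 ^ l : ℕ) : ℝ) : ℝ) =
        ((A : ℝ) / 2 ^ l - 1 / 3) + ((1 : ℕ) : ℝ) := by
      push_cast
      field_simp
      ring
    rw [h3, AddCircle.coe_add, coe_nat_cast, add_zero]
  rw [h2, h1]
  unfold tau
  push_cast
  field_simp

theorem nn_le (T : ℕ → ℕ → Bool) (A l n : ℕ) : nn T A l n ≤ 2 ^ l := by
  unfold nn
  split_ifs
  · exact min_le_left _ _
  · exact le_rfl

theorem rad_dyadic (T : ℕ → ℕ → Bool) (A l n : ℕ) :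
    rad T n ((((A : ℝ) / 2 ^ l : ℝ)) : UnitAddCircle) = (nn T A l n : ℝ) / 2 ^ l := by
  have h2 : (0 : ℝ) < 2 ^ l := by positivity
  unfold rad nn
  split_ifs with h
  · rw [norm_dyadic]
    push_cast
    rw [← mul_div_assoc, ← min_div_div_right h2.le, div_self h2.ne']
  · push_cast
    rw [div_self h2.ne']

/-- If `n` does not leave before stage `l`, or if `l ≤ n`, then the radius is `1`. -/
theorem nn_eq (T : ℕ → ℕ → Bool) (A l n : ℕ) (h : (∀ y < l, T n y = false) ∨ l ≤ n) :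
    nn T A l n = 2 ^ l := by
  unfold nn
  split_ifs with h1
  · refine min_eq_left ?_
    have h2 : l ≤ Nat.find h1 + n := by
      rcases h with h | h
      · by_contra hc
        have h3 := h (Nat.find h1) (by omega)
        rw [Nat.find_spec h1] at h3
        cases h3
      · omega
    calc 2 ^ l ≤ 2 ^ (Nat.find h1 + n) := Nat.pow_le_pow_right (by norm_num) h2
      _ ≤ 2 ^ (Nat.find h1 + n) * tau A l := Nat.le_mul_of_pos_right _ (tau_pos A l)
  · rfl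

theorem nn_find (T : ℕ → ℕ → Bool) (A l n y : ℕ) (h1 : T n y = true)
    (h2 : ∀ y' < y, T n y' = false) : nn T A l n = min (2 ^ l) (2 ^ (y + n) * tau A l) := by
  have h : ∃ y, T n y = true := ⟨y, h1⟩
  have hy : Nat.find h = y := by
    rw [Nat.find_eq_iff]
    refine ⟨h1, fun m hm hc => ?_⟩
    rw [h2 m hm] at hc
    cases hc
  unfold nn
  rw [dif_pos h, hy]

/-- The time of the point number `k`. -/
noncomputable def tm (k : ℕ) : ℝ := (k.unpair.1 : ℝ) / 2 ^ k.unpair.2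

theorem pm_sqq (T : ℕ → ℕ → Bool) (k : ℕ) : pm (sqq T k) = ph T (tm k) := by
  have hg : ∀ n, (sqq T k).2.2.getD n (0, 0) = if n < k.unpair.2 then
      (0, 2 ^ k.unpair.2 - nn T k.unpair.1 k.unpair.2 n) else (0, 0) := fun n =>
    Pool.Agent.W654.LQ.Dense.getD_map_range _ _ n
  refine Prod.ext rfl (Prod.ext (funext fun n => Subtype.ext ?_) (funext fun n => ?_))
  · change (rho (sqq T k) n : ℝ) / 2 ^ k.unpair.2 =
      rad T n ((((k.unpair.1 : ℝ) / 2 ^ k.unpair.2 : ℝ)) : UnitAddCircle)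
    rw [rad_dyadic]
    congr 2
    unfold rho
    rw [hg]
    have h2 := nn_le T k.unpair.1 k.unpair.2 n
    change 2 ^ k.unpair.2 - min _ (2 ^ k.unpair.2) = _
    split_ifs with h
    · simp only
      omega
    · rw [nn_eq T _ _ _ (Or.inr (not_lt.1 h))]
      simp
  · change ((((k.unpair.1 : ℝ) / 2 ^ k.unpair.2 + jj (sqq T k) n) / M n : ℝ) : UnitAddCircle) =
      (((k.unpair.1 : ℝ) / 2 ^ k.unpair.2 / M n : ℝ) : UnitAddCircle)
    have h1 : jj (sqq T k) n = 0 := by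
      unfold jj
      rw [hg]
      split_ifs <;> rfl
    rw [h1]
    simp

theorem denseRange_seq (T : ℕ → ℕ → Bool) : DenseRange fun k => pp T (tm k) := by
  rw [Metric.denseRange_iff]
  rintro ⟨_, a, ha, rfl⟩ r hr
  obtain ⟨k, hk⟩ := exists_pow_lt_of_lt_one (show 0 < r / 2 by linarith)
    (show (1 / 2 : ℝ) < 1 by norm_num)
  obtain ⟨t, ht0, ht⟩ := path_dense T a ha k
  obtain ⟨δ, hδ, hδ2⟩ := Metric.continuousAt_iff.1 ((continuous_pp T).continuousAt (x := t))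
    (r / 2) (by linarith)
  obtain ⟨l, hl⟩ := exists_pow_lt_of_lt_one hδ (show (1 / 2 : ℝ) < 1 by norm_num)
  refine ⟨Nat.pair ⌊t * 2 ^ l⌋₊ l, ?_⟩
  have h1 : tm (Nat.pair ⌊t * 2 ^ l⌋₊ l) = (⌊t * 2 ^ l⌋₊ : ℝ) / 2 ^ l := by
    unfold tm
    rw [Nat.unpair_pair]
  have h2 := Pool.Agent.W654.LQ.Dense.floor_approx t ht0 l
  rw [← h1, abs_sub_comm, ← Real.dist_eq] at h2
  have h3 := hδ2 (h2.trans_lt hl)
  have h4 : dist (pp T t) (ptt T a ha) ≤ (1 / 2 : ℝ) ^ k := ht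
  calc dist (ptt T a ha) (pp T (tm (Nat.pair ⌊t * 2 ^ l⌋₊ l))) ≤
      dist (ptt T a ha) (pp T t) + dist (pp T t) (pp T (tm (Nat.pair ⌊t * 2 ^ l⌋₊ l))) :=
        dist_triangle _ _ _
    _ < r := by
      rw [dist_comm (ptt T a ha), dist_comm (pp T t) (pp T (tm _))]
      linarith

/-! ## Computability -/

open Pool.Agent.W585.LQ.NM (ge p_ge)

theorem two_pow : Primrec fun m : ℕ => 2 ^ m :=
  (Primrec₂.unpaired'.1 Nat.Primrec.pow).comp (Primrec.const 2) Primrec.id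

theorem p_tr : Primrec₂ tr := by
  have h1 : Primrec₂ fun P Q : ℕ => P % Q := Primrec.nat_mod
  exact Primrec.nat_min.comp h1 (Primrec.nat_sub.comp Primrec.snd h1)

theorem p_tau : Primrec₂ tau := by
  have h2 : Primrec fun x : ℕ × ℕ => 2 ^ x.2 := two_pow.comp Primrec.snd
  exact p_tr.comp (Primrec.nat_add.comp (Primrec.nat_mul.comp (Primrec.const 3) Primrec.fst)
    (Primrec.nat_mul.comp (Primrec.const 2) h2)) (Primrec.nat_mul.comp (Primrec.const 3) h2)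

/-- The entry of the list if `n` leaves at `y`. -/
def ent (A l n y : ℕ) : ℕ × ℕ := (0, 2 ^ l - min (2 ^ l) (2 ^ (y + n) * tau A l))

theorem sqq_eq (T : ℕ → ℕ → Bool) (k : ℕ) (c : Cd) : sqq T k = c ↔
    (c.1 = k.unpair.1 ∧ c.2.1 = k.unpair.2 ∧ c.2.2.length = k.unpair.2) ∧
      ∀ n < k.unpair.2,
        (∃ y, (T n y = true ∧ ∀ y' < y, T n y' = false) ∧
          ge c.2.2 n = ent k.unpair.1 k.unpair.2 n y) ∨
        ((∀ y < k.unpair.2, T n y = false) ∧ ge c.2.2 n = (0, 0)) := by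
  have key : ∀ n, ∀ u : ℕ × ℕ, u = (0, 2 ^ k.unpair.2 - nn T k.unpair.1 k.unpair.2 n) ↔
      ((∃ y, (T n y = true ∧ ∀ y' < y, T n y' = false) ∧
          u = ent k.unpair.1 k.unpair.2 n y) ∨
        ((∀ y < k.unpair.2, T n y = false) ∧ u = (0, 0))) := by
    intro n u
    constructor
    · intro h
      by_cases h1 : ∃ y, T n y = true
      · left
        classical
        refine ⟨Nat.find h1, ⟨Nat.find_spec h1, fun y' hy' => ?_⟩, ?_⟩
        · have := Nat.find_min h1 hy'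
          simpa using this
        · rw [h, nn_find T _ _ n (Nat.find h1) (Nat.find_spec h1) (fun y' hy' => by
            have := Nat.find_min h1 hy'
            simpa using this)]
          rfl
      · right
        push Not at h1
        have h2 : ∀ y < k.unpair.2, T n y = false := fun y _ => by simpa using h1 y
        refine ⟨h2, ?_⟩
        rw [h, nn_eq T _ _ n (Or.inl h2), Nat.sub_self]
    · rintro (⟨y, ⟨h1, h2⟩, h3⟩ | ⟨h1, h2⟩)
      · rw [h3, nn_find T _ _ n y h1 h2]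
        rfl
      · rw [h2, nn_eq T _ _ n (Or.inl h1), Nat.sub_self]
  constructor
  · rintro rfl
    refine ⟨⟨rfl, rfl, by simp [sqq]⟩, fun n hn => (key n _).1 ?_⟩
    have := Pool.Agent.W654.LQ.Dense.getD_map_range k.unpair.2
      (fun n => (0, 2 ^ k.unpair.2 - nn T k.unpair.1 k.unpair.2 n)) n
    rw [if_pos hn] at this
    exact this
  · rintro ⟨⟨h1, h2, h3⟩, h4⟩
    refine Prod.ext h1.symm (Prod.ext h2.symm ?_)
    refine List.ext_getElem (by simp [sqq, h3]) fun n h5 h6 => ?_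
    have hn : n < k.unpair.2 := by rw [← h3]; exact h6
    have h7 := (key n _).2 (h4 n hn)
    have e1 : ge c.2.2 n = c.2.2[n] := by simp [ge, List.getD_eq_getElem?_getD, h6]
    rw [← e1, h7]
    simp [sqq]

theorem nmm (D : ℕ → Bool) (T : ℕ → ℕ → Bool) (hT : TLe (fun m => T m.unpair.1 m.unpair.2) D) :
    SI D fun x : ℕ × Cd => sqq T x.1 = x.2 := by
  have hT' := tLe_iff_SI.1 hT
  have hq : ∀ (r : Bool) {α : Type} [Primcodable α] (f g : α → ℕ), Primrec f → Primrec g →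
      SI D fun z : α => T (f z) (g z) = r := by
    intro r α _ f g hf hg
    refine (hT'.comp (f := fun z : α => (Nat.pair (f z) (g z), r)) ?_).of_eq ?_
    · exact (Primrec₂.natPair.comp hf hg).pair (Primrec.const r)
    · intro z
      simp
  have pk1 : Primrec fun x : ℕ × Cd => x.1.unpair.1 :=
    Primrec.fst.comp (Primrec.unpair.comp Primrec.fst)
  have pk2 : Primrec fun x : ℕ × Cd => x.1.unpair.2 :=
    Primrec.snd.comp (Primrec.unpair.comp Primrec.fst)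
  have a1 : SI D fun x : ℕ × Cd => x.2.1 = x.1.unpair.1 :=
    SI.of_prim (Primrec.eq.comp (Primrec.fst.comp Primrec.snd) pk1)
  have a2 : SI D fun x : ℕ × Cd => x.2.2.1 = x.1.unpair.2 :=
    SI.of_prim (Primrec.eq.comp (Primrec.fst.comp (Primrec.snd.comp Primrec.snd)) pk2)
  have a3 : SI D fun x : ℕ × Cd => x.2.2.2.length = x.1.unpair.2 :=
    SI.of_prim (Primrec.eq.comp (Primrec.list_length.comp
      (Primrec.snd.comp (Primrec.snd.comp Primrec.snd))) pk2)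
  -- the entry
  have g1 : Primrec fun z : (ℕ × Cd) × ℕ => ge z.1.2.2.2 z.2 :=
    p_ge.comp (Primrec.snd.comp (Primrec.snd.comp (Primrec.snd.comp Primrec.fst))) Primrec.snd
  have pent : Primrec fun z : ((ℕ × Cd) × ℕ) × ℕ =>
      ent z.1.1.1.unpair.1 z.1.1.1.unpair.2 z.1.2 z.2 := by
    have q1 : Primrec fun z : ((ℕ × Cd) × ℕ) × ℕ => z.1.1.1.unpair.1 :=
      pk1.comp (Primrec.fst.comp Primrec.fst)
    have q2 : Primrec fun z : ((ℕ × Cd) × ℕ) × ℕ => z.1.1.1.unpair.2 :=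
      pk2.comp (Primrec.fst.comp Primrec.fst)
    have q3 : Primrec fun z : ((ℕ × Cd) × ℕ) × ℕ => 2 ^ z.1.1.1.unpair.2 := two_pow.comp q2
    have q4 : Primrec fun z : ((ℕ × Cd) × ℕ) × ℕ => 2 ^ (z.2 + z.1.2) :=
      two_pow.comp (Primrec.nat_add.comp Primrec.snd (Primrec.snd.comp Primrec.fst))
    have q5 : Primrec fun z : ((ℕ × Cd) × ℕ) × ℕ => tau z.1.1.1.unpair.1 z.1.1.1.unpair.2 :=
      p_tau.comp q1 q2
    exact (Primrec.const 0).pair (Primrec.nat_sub.comp q3 (Primrec.nat_min.comp q3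
      (Primrec.nat_mul.comp q4 q5)))
  have b1 : SI D fun z : ((ℕ × Cd) × ℕ) × ℕ => T z.1.2 z.2 = true :=
    hq true (fun z : ((ℕ × Cd) × ℕ) × ℕ => z.1.2) (fun z => z.2)
      (Primrec.snd.comp Primrec.fst) Primrec.snd
  have b2 : SI D fun z : ((ℕ × Cd) × ℕ) × ℕ => ∀ y' < z.2, T z.1.2 y' = false :=
    SI.all_lt (α := ((ℕ × Cd) × ℕ) × ℕ) (p := fun z y' => T z.1.2 y' = false) (f := fun z => z.2)
      (hq false (fun z : (((ℕ × Cd) × ℕ) × ℕ) × ℕ => z.1.1.2) (fun z => z.2)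
        (Primrec.snd.comp (Primrec.fst.comp Primrec.fst)) Primrec.snd) Primrec.snd
  have b3 : SI D fun z : ((ℕ × Cd) × ℕ) × ℕ =>
      ge z.1.1.2.2.2 z.1.2 = ent z.1.1.1.unpair.1 z.1.1.1.unpair.2 z.1.2 z.2 :=
    SI.of_prim (Primrec.eq.comp (g1.comp Primrec.fst) pent)
  have b4 : SI D fun z : (ℕ × Cd) × ℕ => ∃ y, (T z.2 y = true ∧ ∀ y' < y, T z.2 y' = false) ∧
      ge z.1.2.2.2 z.2 = ent z.1.1.unpair.1 z.1.1.unpair.2 z.2 y :=
    SI.ex (p := fun (z : (ℕ × Cd) × ℕ) (y : ℕ) => (T z.2 y = true ∧ ∀ y' < y, T z.2 y' = false) ∧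
      ge z.1.2.2.2 z.2 = ent z.1.1.unpair.1 z.1.1.unpair.2 z.2 y) ((b1.and b2).and b3)
  have b5 : SI D fun z : (ℕ × Cd) × ℕ => ∀ y < z.1.1.unpair.2, T z.2 y = false :=
    SI.all_lt (α := (ℕ × Cd) × ℕ) (p := fun z y => T z.2 y = false)
      (f := fun z => z.1.1.unpair.2)
      (hq false (fun z : ((ℕ × Cd) × ℕ) × ℕ => z.1.2) (fun z => z.2)
        (Primrec.snd.comp Primrec.fst) Primrec.snd) (pk2.comp Primrec.fst)
  have b6 : SI D fun z : (ℕ × Cd) × ℕ => ge z.1.2.2.2 z.2 = (0, 0) :=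
    SI.of_prim (Primrec.eq.comp g1 (Primrec.const (0, 0)))
  have a4 : SI D fun x : ℕ × Cd => ∀ n < x.1.unpair.2,
      (∃ y, (T n y = true ∧ ∀ y' < y, T n y' = false) ∧
          ge x.2.2.2 n = ent x.1.unpair.1 x.1.unpair.2 n y) ∨
        ((∀ y < x.1.unpair.2, T n y = false) ∧ ge x.2.2.2 n = (0, 0)) :=
    SI.all_lt (α := ℕ × Cd) (p := fun x n =>
      (∃ y, (T n y = true ∧ ∀ y' < y, T n y' = false) ∧
          ge x.2.2.2 n = ent x.1.unpair.1 x.1.unpair.2 n y) ∨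
        ((∀ y < x.1.unpair.2, T n y = false) ∧ ge x.2.2.2 n = (0, 0)))
      (f := fun x => x.1.unpair.2) (b4.or (b5.and b6)) pk2
  exact ((a1.and (a2.and a3)).and a4).of_eq fun x => (sqq_eq T x.1 x.2).symm

end Pool.Agent.Helper324_LP
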