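import Pool.Agent.Helper324_LP.XDim
import Pool.Agent.Helper324_LP.Seq
import Pool.Agent.W366.LP.Lt
import Pool.Agent.W361.LQ.Fin
import Pool.Agent.W641.LQ.APX
import Pool.Agent.W19.LQ.FP
import Pool.Agent.W918.LQ.CX
import Pool.Agent.W565.LQ.Near
import Pool.Agent.W311.LQ.Init
import Pool.Agent.W924.LQ.BACK
import Pool.Agent.W605.LQ.Forth
import Pool.Agent.W436.LQ.PI
import Pool.Agent.W162.LQ.Tab
import Pool.Agent.W952.LP.Low

/-!
# Assembly
-/

set_option autoImplicit false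

namespace Pool.Agent.Helper324_LP

open BoundedContinuousFunction Pool.Agent.W361.LQ Topology Filter
open Pool.Agent.Helper227 Pool.Agent.H685R3
open Pool.Agent.W952.LP (ratVal CompIn Presented DimLE zero)

theorem ratVal_pair (a b : ℕ) : ratVal (Nat.pair a b) = (a : ℝ) / ((b : ℝ) + 1) := by
  unfold ratVal
  rw [Nat.unpair_pair]

/-- The strict inequalities between the distances and rational numbers are computably enumerable. -/
theorem s1_lt_gt (d : ℕ → ℕ → ℝ) (f : ℕ → ℕ) (hf : CompIn zero f)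
    (hd : ∀ i j n : ℕ, |d i j - ratVal (f (Nat.pair i (Nat.pair j n)))| ≤ (1 / 2 : ℝ) ^ n) :
    S1 (fun q : ℕ × ℕ × ℕ × ℕ => d q.1 q.2.1 < (q.2.2.1 : ℝ) / ((q.2.2.2 : ℝ) + 1)) ∧
    S1 (fun q : ℕ × ℕ × ℕ × ℕ => (q.2.2.1 : ℝ) / ((q.2.2.2 : ℝ) + 1) < d q.1 q.2.1) := by
  have pq : Primrec fun q : ℕ × ℕ × ℕ × ℕ => Nat.pair q.2.2.1 q.2.2.2 :=
    Primrec₂.natPair.comp (Primrec.fst.comp (Primrec.snd.comp Primrec.snd))
      (Primrec.snd.comp (Primrec.snd.comp Primrec.snd))
  constructor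
  · have h1 := Pool.Agent.W366.LP.lt_holds d f hf hd
    refine (S1.comp (f := fun q : ℕ × ℕ × ℕ × ℕ => (q.1, q.2.1, Nat.pair q.2.2.1 q.2.2.2)) h1
      ?_).of_eq fun q => ?_
    · exact Primrec.fst.pair ((Primrec.fst.comp Primrec.snd).pair pq)
    · simp only [ratVal_pair]
  · have hfc : Computable f := by
      have h0 : TuringReducible (fun n => Part.some (f n)) (fun _ : ℕ => Part.some 0) := hf
      exact TuringReducible.partrec_of_const h0
    have h1 : Computable fun x : (ℕ × ℕ × ℕ × ℕ) × ℕ =>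
        ((Nat.pair x.1.2.2.1 x.1.2.2.2, f (Nat.pair x.1.1 (Nat.pair x.1.2.1 x.2))), x.2) := by
      have e1 : Computable fun x : (ℕ × ℕ × ℕ × ℕ) × ℕ =>
          Nat.pair x.1.1 (Nat.pair x.1.2.1 x.2) :=
        (Primrec₂.natPair.comp (Primrec.fst.comp Primrec.fst)
          (Primrec₂.natPair.comp (Primrec.fst.comp (Primrec.snd.comp Primrec.fst))
            Primrec.snd)).to_comp
      exact ((pq.comp Primrec.fst).to_comp.pair (hfc.comp e1)).pair Primrec.snd.to_comp
    have h2 : S1 fun x : (ℕ × ℕ × ℕ × ℕ) × ℕ => Pool.Agent.W366.LP.R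
        ((Nat.pair x.1.2.2.1 x.1.2.2.2, f (Nat.pair x.1.1 (Nat.pair x.1.2.1 x.2))), x.2) :=
      (S1.of_prim Pool.Agent.W366.LP.prim_R).comp_computable h1
    have h3 : S1 fun q : ℕ × ℕ × ℕ × ℕ => ∃ m : ℕ, Pool.Agent.W366.LP.R
        ((Nat.pair q.2.2.1 q.2.2.2, f (Nat.pair q.1 (Nat.pair q.2.1 m))), m) :=
      S1.ex (p := fun (q : ℕ × ℕ × ℕ × ℕ) (m : ℕ) => Pool.Agent.W366.LP.R
        ((Nat.pair q.2.2.1 q.2.2.2, f (Nat.pair q.1 (Nat.pair q.2.1 m))), m)) h2
    refine h3.of_eq fun q => ?_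
    constructor
    · rintro ⟨m, hm⟩
      rw [Pool.Agent.W366.LP.R_iff, ratVal_pair] at hm
      have h4 := (abs_le.1 (hd q.1 q.2.1 m)).1
      linarith
    · intro h
      obtain ⟨m, hm⟩ := exists_pow_lt_of_lt_one
        (x := (d q.1 q.2.1 - (q.2.2.1 : ℝ) / ((q.2.2.2 : ℝ) + 1)) / 2)
        (by linarith) (y := (1 / 2 : ℝ)) (by norm_num)
      refine ⟨m, (Pool.Agent.W366.LP.R_iff _ _ _).2 ?_⟩
      rw [ratVal_pair]
      have h4 := (abs_le.1 (hd q.1 q.2.1 m)).2
      linarith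

/-- The code of the approximation of the distance. -/
def GG (c c' : Cd) (k : ℕ) : ℕ := Nat.pair (F c c' k) (2 ^ k - 1)

theorem p_GG : Primrec fun x : Cd × Cd × ℕ => GG x.1 x.2.1 x.2.2 := by
  have h1 : Primrec fun x : Cd × Cd × ℕ => F x.1 x.2.1 x.2.2 := Pool.Agent.W19.LQ.main
  have h2 : Primrec fun x : Cd × Cd × ℕ => 2 ^ x.2.2 - 1 :=
    Primrec.nat_sub.comp (two_pow.comp (Primrec.snd.comp Primrec.snd)) (Primrec.const 1)
  exact Primrec₂.natPair.comp h1 h2

theorem ratVal_GG (c c' : Cd) (k : ℕ) : ratVal (GG c c' k) = (F c c' k : ℝ) / 2 ^ k := by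
  unfold GG
  rw [ratVal_pair]
  congr 1
  have : 1 ≤ 2 ^ k := Nat.one_le_two_pow
  push_cast [Nat.cast_sub this]
  ring

/-- The space has a presentation computable in the oracle. -/
theorem presented {D : ℕ → Bool} {T : ℕ → ℕ → Bool}
    (hT : TLe (fun m => T m.unpair.1 m.unpair.2) D) : Presented D (XX T) := by
  have : CompactSpace (XX T) := isCompact_iff_compactSpace.1 (isCompact_XX T)
  refine ⟨inferInstance, rfl, inferInstance, fun k => pp T (tm k), denseRange_seq T,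
    fun m => GG (sqq T m.unpair.1) (sqq T m.unpair.2.unpair.1) m.unpair.2.unpair.2,
    comp' (G := GG) p_GG (nmm D T hT), fun i j n => ?_⟩
  simp only [Nat.unpair_pair]
  rw [ratVal_GG]
  have h1 := Pool.Agent.W641.LQ.apx Pool.Agent.W923.LQ.Val.main (sqq T i) (sqq T j) n
  rw [pm_sqq, pm_sqq, ← one_div_pow, abs_sub_comm] at h1
  exact h1

/-- If a homeomorphic space has a computable presentation, then the set is c.e. in the jump. -/
theorem decode (T : ℕ → ℕ → Bool) (Y : Type) [t : TopologicalSpace Y] (hY : Presented zero Y)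
    (φ : XX T ≃ₜ Y) : SI (jump zero) fun n : ℕ => n ∈ SS T := by
  obtain ⟨m, hm, -, y, hy, h, hh1, hh2⟩ := hY
  subst hm
  have hcX : CompactSpace (XX T) := isCompact_iff_compactSpace.1 (isCompact_XX T)
  have hcQ : CompactSpace Y := φ.compactSpace
  obtain ⟨f, hf1, hf2⟩ := div T
  let f' : C(Y, UnitAddCircle) := ⟨fun q => f (φ.symm q), f.continuous.comp φ.symm.continuous⟩
  obtain ⟨C, d, hC⟩ := Pool.Agent.W311.LQ.main Y y hy f'
  obtain ⟨hL, hG⟩ := s1_lt_gt (fun i j => dist (y i) (y j)) h hh1 hh2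
  have key : ∀ n : ℕ, n ∈ SS T ↔ ∃ (E : List (ℕ × ℕ)) (e : ℕ),
      Cond (LtY y) (GtY y) C d (M n) E e := by
    intro n
    constructor
    · intro hn
      obtain ⟨g, hg⟩ := hf2 n hn
      let g' : C(Y, UnitAddCircle) :=
        ⟨fun q => g (φ.symm q), g.continuous.comp φ.symm.continuous⟩
      exact Pool.Agent.W605.LQ.Forth.main Pool.Agent.W565.LQ.Near.main Y y hy f' g' C d (M n)
        (M_pos n) hC fun q => hg (φ.symm q)
    · rintro ⟨E, e, hE⟩
      obtain ⟨g', hg'⟩ := Pool.Agent.W924.LQ.BACK.main Pool.Agent.W565.LQ.Near.main Y y hy f' C d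
        (M n) (M_pos n) hC E e hE
      let g : C(XX T, UnitAddCircle) := ⟨fun x => g' (φ x), g'.continuous.comp φ.continuous⟩
      refine non T f g n hf1 fun x => ?_
      have h3 := hg' (φ x)
      simp only [f', ContinuousMap.coe_mk, Homeomorph.symm_apply_apply] at h3
      exact h3
  exact (Pool.Agent.W918.LQ.CX.main (LtY y) (GtY y) hL hG C d).of_eq fun n => (key n).symm

/-- Every non-low oracle presents a continuum of dimension at most one without computable
presentation. -/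
theorem fin (D : ℕ → Bool) (hD : ¬ TLe (jump D) (jump zero)) :
    ∃ (X : Type) (_ : TopologicalSpace X), CompactSpace X ∧ ConnectedSpace X ∧ DimLE X 1 ∧
      Presented D X ∧ ∀ (Y : Type) [TopologicalSpace Y], Presented zero Y → IsEmpty (X ≃ₜ Y) := by
  obtain ⟨T, hT1, hT2⟩ := Pool.Agent.W162.LQTab.main D
  refine ⟨XX T, inferInstance, isCompact_iff_compactSpace.1 (isCompact_XX T),
    connectedSpace_XX T, dim_XX T, presented hT1, fun Y _ hY => ⟨fun φ => ?_⟩⟩
  refine Pool.Agent.W436.LQ.main D hD ?_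
  refine (decode T Y hY φ).of_eq fun n => ?_
  constructor
  · intro h
    by_contra hc
    rw [Bool.not_eq_false, hT2] at hc
    obtain ⟨y, hy⟩ := hc
    have := h y
    rw [hy] at this
    cases this
  · intro h y
    by_contra hc
    rw [Bool.not_eq_false] at hc
    have := (hT2 n).2 ⟨y, hc⟩
    rw [h] at this
    cases this

theorem zero_tLe (D : ℕ → Bool) : TLe zero D := by
  rw [tLe_iff_SI]
  refine (SI.of_prim (B := D) (p := fun x : ℕ × Bool => false = x.2)
    (Primrec.eq.comp (Primrec.const false) Primrec.snd)).of_eq fun x => Iff.rfl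

theorem iter_mono {A B : ℕ → Bool} (h : TLe A B) (n : ℕ) : TLe (jump^[n] A) (jump^[n] B) := by
  induction n with
  | zero => exact h
  | succ n ih =>
    rw [Function.iterate_succ_apply', Function.iterate_succ_apply']
    exact ih.jump

/-- The oracle of the main theorem. -/
theorem degree : ∃ D : ℕ → Bool, ¬ TLe (jump D) (jump zero) ∧
    ∀ n, 2 ≤ n → TLe (jump^[n] D) (jump^[n] zero) ∧ TLe (jump^[n] zero) (jump^[n] D) := by
  obtain ⟨D, hD1, hD2⟩ := deg2 Pool.Agent.W952.LP.low Pool.Agent.W952.LP.inv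
  refine ⟨D, hD1, fun n hn => ⟨?_, iter_mono (zero_tLe D) n⟩⟩
  obtain ⟨m, rfl⟩ := Nat.exists_eq_add_of_le hn
  rw [add_comm, Function.iterate_add_apply, Function.iterate_add_apply]
  exact iter_mono hD2 m

end Pool.Agent.Helper324_LP
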