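import Pool.Agent.Helper324_LP.Space

/-!
# The divisibility of the map to the circle
-/

set_option autoImplicit false

namespace Pool.Agent.Helper324_LP

open BoundedContinuousFunction Pool.Agent.W361.LQ Topology Filter

/-- The map to the circle and its divisibility for `n ∈ SS T`. -/
theorem div (T : ℕ → ℕ → Bool) : ∃ f : C(XX T, UnitAddCircle),
    (∀ (a : Pm) (h : a ∈ KK T), f (ptt T a h) = a.1) ∧
      ∀ n ∈ SS T, ∃ g : C(XX T, UnitAddCircle), ∀ x, M n • g x = f x := by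
  obtain ⟨f, hf1, hf2⟩ := Pool.Agent.W395.LQ.Div.main Pool.Agent.W764.LQ.main
    Pool.Agent.W168.LQ.main (SS T)
  have hi : Continuous (Set.inclusion (XX_sub T)) := continuous_inclusion _
  refine ⟨⟨fun x => f (Set.inclusion (XX_sub T) x), f.continuous.comp hi⟩, fun a h => ?_,
    fun n hn => ?_⟩
  · exact hf1 a (KK_sub T h)
  · obtain ⟨g, hg⟩ := hf2 n hn
    exact ⟨⟨fun x => g (Set.inclusion (XX_sub T) x), g.continuous.comp hi⟩,
      fun x => hg (Set.inclusion (XX_sub T) x)⟩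

/-- The special times. -/
noncomputable def tt (n k : ℕ) : ℝ := 1 / 3 + (Pool.Agent.W381.LQ.tk n k : ℝ)

theorem dist_tt {T : ℕ → ℕ → Bool} {n : ℕ} (hn : n ∉ SS T) (k : ℕ) :
    dist (Phi (ph T (tt n k))) (Phi (ph T (1 / 3))) ≤ (1 / 2 : ℝ) ^ k := by
  refine dist_of_eq fun i hi => ?_
  have hz : (ph T (tt n k)).1 = (ph T (1 / 3)).1 := by
    change ((1 / 3 + (Pool.Agent.W381.LQ.tk n k : ℝ) : ℝ) : UnitAddCircle) =
      ((1 / 3 : ℝ) : UnitAddCircle)
    rw [AddCircle.coe_add, coe_nat_cast, add_zero]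
  refine crd_congr hz (fun m => ?_) (fun h0 => ?_)
  · change radI T m (ph T (tt n k)).1 = radI T m (ph T (1 / 3)).1
    rw [hz]
  · by_cases hin : i - 1 = n
    · right
      rw [hin]
      change rad T n (ph T (tt n k)).1 = 0
      rw [hz]
      exact rad_third hn
    · left
      change ((((1 / 3 + (Pool.Agent.W381.LQ.tk n k : ℝ) : ℝ)) / M (i - 1) : ℝ) : UnitAddCircle) =
        (((1 / 3 : ℝ) / M (i - 1) : ℝ) : UnitAddCircle)
      have hd : M (i - 1) ∣ Pool.Agent.W381.LQ.tk n k := by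
        unfold Pool.Agent.W381.LQ.tk
        refine Finset.dvd_prod_of_mem _ ?_
        rw [Finset.mem_erase, Finset.mem_range]
        exact ⟨hin, by omega⟩
      obtain ⟨m, hm⟩ := hd
      have hM := Pool.Agent.W381.LQ.M_pos (i - 1)
      have e3 : (1 / 3 + (Pool.Agent.W381.LQ.tk n k : ℝ)) / M (i - 1) =
          (1 / 3 : ℝ) / M (i - 1) + (m : ℝ) := by
        rw [hm]; push_cast
        field_simp
      rw [e3, AddCircle.coe_add, coe_nat_cast, add_zero]

/-- No divisibility for `n ∉ SS T`. -/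
theorem non (T : ℕ → ℕ → Bool) (f g : C(XX T, UnitAddCircle)) (n : ℕ)
    (hf : ∀ (a : Pm) (h : a ∈ KK T), f (ptt T a h) = a.1) (hg : ∀ x, M n • g x = f x) :
    n ∈ SS T := by
  by_contra hn
  let h : ℝ → UnitAddCircle := fun t => g (pp T t)
  have hh : Continuous h := g.continuous.comp (continuous_pp T)
  have hM : (0 : ℝ) < M n := Pool.Agent.W381.LQ.M_pos n
  have hhM : ∀ t : ℝ, M n • h t = (t : UnitAddCircle) := fun t => by
    change M n • g (pp T t) = _
    rw [hg]
    exact hf _ _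
  let u : ℝ → UnitAddCircle := fun t => h t - ((t / M n : ℝ) : UnitAddCircle)
  have hu : Continuous u := by
    refine hh.sub ?_
    exact (AddCircle.continuous_mk' (1 : ℝ)).comp (continuous_id.div_const _)
  have huM : ∀ t, M n • u t = 0 := fun t => by
    change M n • (h t - ((t / M n : ℝ) : UnitAddCircle)) = 0
    rw [nsmul_sub, hhM, Pool.Agent.W381.LQ.nsmul_div (M n) hM, sub_self]
  have hloc : IsLocallyConstant u := by
    rw [IsLocallyConstant.iff_eventually_eq]
    intro x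
    have h1 : ∀ᶠ y in 𝓝 x, dist (u y) (u x) < 1 / (M n : ℝ) :=
      (hu.tendsto x).eventually (Metric.ball_mem_nhds _ (by positivity))
    filter_upwards [h1] with y hy
    rw [dist_eq_norm] at hy
    have h2 : M n • (u y - u x) = 0 := by rw [nsmul_sub, huM, huM, sub_self]
    exact sub_eq_zero.1 (tor h2 hy)
  have hconst : ∀ t, u t = u (1 / 3) := fun t => hloc.apply_eq_of_preconnectedSpace t (1 / 3)
  have hform : ∀ t, h t - h (1 / 3) = (((t - 1 / 3) / M n : ℝ) : UnitAddCircle) := fun t => by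
    have h1 := hconst t
    change h t - ((t / M n : ℝ) : UnitAddCircle) =
      h (1 / 3) - (((1 / 3 : ℝ) / M n : ℝ) : UnitAddCircle) at h1
    rw [sub_div, AddCircle.coe_sub]
    rw [sub_eq_sub_iff_add_eq_add] at h1 ⊢
    rw [h1, add_comm]
  -- the special times
  have ht : Tendsto (fun k : ℕ => pp T (tt n k)) atTop (𝓝 (pp T (1 / 3))) := by
    rw [tendsto_iff_dist_tendsto_zero]
    refine squeeze_zero (fun _ => dist_nonneg) (fun k => dist_tt hn k) ?_
    exact tendsto_pow_atTop_nhds_zero_of_lt_one (by norm_num) (by norm_num)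
  have hg2 : Tendsto (fun k : ℕ => h (tt n k)) atTop (𝓝 (h (1 / 3))) :=
    (g.continuous.tendsto (pp T (1 / 3))).comp ht
  have hev : ∀ᶠ k : ℕ in atTop, dist (h (tt n k)) (h (1 / 3)) < 1 / (M n : ℝ) :=
    hg2.eventually (Metric.ball_mem_nhds _ (by positivity))
  obtain ⟨k, hk⟩ := hev.exists
  have e0 : tt n k - 1 / 3 = (Pool.Agent.W381.LQ.tk n k : ℝ) := by
    unfold tt
    ring
  rw [dist_eq_norm, hform, e0] at hk
  have h3 : M n • ((((Pool.Agent.W381.LQ.tk n k : ℕ) : ℝ) / M n : ℝ) : UnitAddCircle) = 0 := by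
    rw [Pool.Agent.W381.LQ.nsmul_div (M n) hM, coe_nat_cast]
  have h4 := tor h3 hk
  rw [AddCircle.coe_eq_zero_iff] at h4
  obtain ⟨m, hm⟩ := h4
  have h5 : ((Pool.Agent.W381.LQ.tk n k : ℕ) : ℝ) = (M n : ℝ) * m := by
    have : (m : ℝ) = ((Pool.Agent.W381.LQ.tk n k : ℕ) : ℝ) / M n := by simpa using hm
    rw [this]; field_simp
  have h6 : ((Pool.Agent.W381.LQ.tk n k : ℕ) : ℤ) = (M n : ℤ) * m := by exact_mod_cast h5
  have h7 : M n ∣ Pool.Agent.W381.LQ.tk n k := by
    have : (M n : ℤ) ∣ ((Pool.Agent.W381.LQ.tk n k : ℕ) : ℤ) := ⟨m, h6⟩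
    exact_mod_cast this
  have h8 : Nat.Coprime (M n) (Pool.Agent.W381.LQ.tk n k) := by
    unfold Pool.Agent.W381.LQ.tk
    refine Nat.Coprime.prod_right fun j hj => ?_
    have hne : n ≠ j := (Finset.ne_of_mem_erase hj).symm
    exact Nat.coprime_fermatNumber_fermatNumber hne
  have h9 : M n = 1 := Nat.eq_one_of_dvd_coprimes h8 dvd_rfl h7
  have : 2 ≤ M n := by
    unfold M
    have : 0 < 2 ^ 2 ^ n := by positivity
    omega
  omega

end Pool.Agent.Helper324_LP
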