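import Pool.Agent.W361.LQ.Stm
import Pool.Agent.W764.LQ.CPT
import Pool.Agent.W168.LQ.Inj
import Pool.Agent.W395.LQ.Div
import Pool.Agent.W381.LQ.Non
import Pool.Agent.W654.LQ.Dense

/-!
# A one-dimensional continuum coding a set of numbers

`T` is a table; `n` never leaves if `T n y = false` for all `y`. The space is the closure of the
path `ph T`, in which the angle number `n` is forgotten at `z = 1/3` exactly if `n` leaves.
-/

set_option autoImplicit false

namespace Pool.Agent.Helper324_LP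

open BoundedContinuousFunction Pool.Agent.W361.LQ Topology Filter

/-- The numbers which never leave. -/
def SS (T : ℕ → ℕ → Bool) : Set ℕ := {n | ∀ y, T n y = false}

/-- The point `1/3` of the circle. -/
noncomputable def third : UnitAddCircle := ((1 / 3 : ℝ) : UnitAddCircle)

open Classical in
/-- The radius number `n` over the point `z` of the circle. -/
noncomputable def rad (T : ℕ → ℕ → Bool) (n : ℕ) (z : UnitAddCircle) : ℝ :=
  if h : ∃ y, T n y = true then min 1 (2 ^ (Nat.find h + n) * (3 * ‖z - third‖)) else 1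

theorem rad_of_stay {T : ℕ → ℕ → Bool} {n : ℕ} (h : n ∈ SS T) (z : UnitAddCircle) :
    rad T n z = 1 := by
  unfold rad
  rw [dif_neg]
  rintro ⟨y, hy⟩
  have := h y
  rw [hy] at this
  cases this

theorem leave {T : ℕ → ℕ → Bool} {n : ℕ} (h : n ∉ SS T) : ∃ y, T n y = true := by
  by_contra hc
  push Not at hc
  exact h fun y => by simpa using hc y

theorem rad_third {T : ℕ → ℕ → Bool} {n : ℕ} (h : n ∉ SS T) : rad T n third = 0 := by
  unfold rad
  rw [dif_pos (leave h)]
  simp

theorem rad_nonneg (T : ℕ → ℕ → Bool) (n : ℕ) (z : UnitAddCircle) : 0 ≤ rad T n z := by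
  unfold rad
  split_ifs
  · positivity
  · exact zero_le_one

theorem rad_le_one (T : ℕ → ℕ → Bool) (n : ℕ) (z : UnitAddCircle) : rad T n z ≤ 1 := by
  unfold rad
  split_ifs
  · exact min_le_left _ _
  · exact le_rfl

theorem continuous_rad (T : ℕ → ℕ → Bool) (n : ℕ) : Continuous (rad T n) := by
  unfold rad
  split_ifs with h
  · exact continuous_const.min (continuous_const.mul (continuous_const.mul
      (continuous_id.sub continuous_const).norm))
  · exact continuous_const

/-- The radius as an element of the unit interval. -/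
noncomputable def radI (T : ℕ → ℕ → Bool) (n : ℕ) (z : UnitAddCircle) : unitInterval :=
  ⟨rad T n z, rad_nonneg T n z, rad_le_one T n z⟩

theorem continuous_radI (T : ℕ → ℕ → Bool) (n : ℕ) : Continuous (radI T n) :=
  (continuous_rad T n).subtype_mk _

/-- The parameters of the space. -/
def KK (T : ℕ → ℕ → Bool) : Set Pm := {a | ∀ n, M n • a.2.2 n = a.1 ∧ a.2.1 n = radI T n a.1}

/-- The space. -/
def XX (T : ℕ → ℕ → Bool) : Set (ℕ →ᵇ ℝ × ℝ × ℝ) := Phi '' KK T

/-- The path of parameters. -/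
noncomputable def ph (T : ℕ → ℕ → Bool) (t : ℝ) : Pm :=
  ((t : UnitAddCircle), fun n => radI T n (t : UnitAddCircle), fun n => ((t / M n : ℝ) : UnitAddCircle))

theorem KK_sub (T : ℕ → ℕ → Bool) : KK T ⊆ K (SS T) := by
  intro a ha n
  refine ⟨(ha n).1, fun hn => ?_⟩
  rw [(ha n).2]
  exact Subtype.ext (rad_of_stay hn _)

theorem XX_sub (T : ℕ → ℕ → Bool) : XX T ⊆ X (SS T) := Set.image_mono (KK_sub T)

theorem ph_mem (T : ℕ → ℕ → Bool) (t : ℝ) : ph T t ∈ KK T := fun n =>
  ⟨Pool.Agent.W381.LQ.nsmul_div (M n) (Pool.Agent.W381.LQ.M_pos n) t, rfl⟩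

theorem isClosed_KK (T : ℕ → ℕ → Bool) : IsClosed (KK T) := by
  have h1 : KK T = ⋂ n, ({a : Pm | M n • a.2.2 n = a.1} ∩ {a : Pm | a.2.1 n = radI T n a.1}) := by
    ext a
    simp only [KK, Set.mem_ofPred_eq, Set.mem_iInter, Set.mem_inter_iff]
  rw [h1]
  refine isClosed_iInter (fun n => ?_)
  have c1 : Continuous (fun a : Pm => a.2.2 n) :=
    (continuous_apply n).comp (continuous_snd.comp continuous_snd)
  have c2 : Continuous (fun a : Pm => a.2.1 n) :=
    (continuous_apply n).comp (continuous_fst.comp continuous_snd)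
  exact (isClosed_eq (c1.const_smul (M n)) continuous_fst).inter
    (isClosed_eq c2 ((continuous_radI T n).comp continuous_fst))

theorem continuous_ph (T : ℕ → ℕ → Bool) : Continuous (ph T) := by
  unfold ph
  have h1 : Continuous fun t : ℝ => (t : UnitAddCircle) := AddCircle.continuous_mk' (1 : ℝ)
  refine h1.prodMk (Continuous.prodMk ?_ ?_)
  · exact continuous_pi fun n => (continuous_radI T n).comp h1
  · exact continuous_pi fun n => h1.comp (continuous_id.div_const _)

theorem continuous_Phi_ph (T : ℕ → ℕ → Bool) : Continuous fun t : ℝ => Phi (ph T t) :=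
  Pool.Agent.W764.LQ.main.2.comp (continuous_ph T)

theorem isCompact_XX (T : ℕ → ℕ → Bool) : IsCompact (XX T) :=
  (isClosed_KK T).isCompact.image Pool.Agent.W764.LQ.main.2

/-- The point of the space with parameter `a`. -/
noncomputable def ptt (T : ℕ → ℕ → Bool) (a : Pm) (h : a ∈ KK T) : XX T := ⟨Phi a, a, h, rfl⟩

/-- The path in the space. -/
noncomputable def pp (T : ℕ → ℕ → Bool) (t : ℝ) : XX T := ptt T (ph T t) (ph_mem T t)

theorem continuous_pp (T : ℕ → ℕ → Bool) : Continuous (pp T) :=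
  Continuous.subtype_mk (continuous_Phi_ph T) _

theorem dist_of_eq {a b : Pm} {k : ℕ} (h : ∀ i ≤ k, crd a i = crd b i) :
    dist (Phi a) (Phi b) ≤ (1 / 2 : ℝ) ^ k := by
  rw [BoundedContinuousFunction.dist_le (by positivity)]
  intro i
  rw [Phi_apply, Phi_apply]
  rcases Nat.lt_or_ge k i with h' | h'
  · have h1 := norm_crd_le' a i
    have h2 := norm_crd_le' b i
    have h3 : ((1 : ℝ) / 2) ^ i ≤ (1 / 2) ^ (k + 1) :=
      pow_le_pow_of_le_one (by norm_num) (by norm_num) h'
    have h4 : ((1 : ℝ) / 2) ^ (k + 1) = (1 / 2) ^ k / 2 := by rw [pow_succ]; ring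
    rw [dist_eq_norm]
    refine (norm_sub_le _ _).trans ?_
    linarith
  · rw [h i h', dist_self]
    positivity

/-- The coordinates are determined by `z`, the radii, and the angles of nonzero radius. -/
theorem crd_congr {a b : Pm} {i : ℕ} (h1 : a.1 = b.1) (h2 : ∀ n, a.2.1 n = b.2.1 n)
    (h3 : i ≠ 0 → a.2.2 (i - 1) = b.2.2 (i - 1) ∨ (a.2.1 (i - 1) : ℝ) = 0) : crd a i = crd b i := by
  unfold crd
  split_ifs with h
  · rw [h1]
  · rw [← h2 (i - 1)]
    rcases h3 h with h4 | h4
    · rw [h4]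
    · rw [h4]
      unfold co
      simp

/-- Chinese remainder theorem. -/
theorem crt (j : ℕ → ℕ) (k : ℕ) : ∃ m : ℕ, ∀ n < k, m ≡ j n [MOD M n] := by
  obtain ⟨m, hm⟩ := Nat.chineseRemainderOfFinset j M (Finset.range k)
    (fun n _ => Nat.succ_ne_zero _) (fun n _ n' _ hne => Nat.coprime_fermatNumber_fermatNumber hne)
  exact ⟨m, fun n hn => hm n (Finset.mem_range.2 hn)⟩

theorem coe_nat_cast (m : ℕ) : ((m : ℝ) : UnitAddCircle) = 0 :=
  Pool.Agent.W381.LQ.coe_nat m

/-- The path is dense. -/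
theorem path_dense (T : ℕ → ℕ → Bool) (a : Pm) (ha : a ∈ KK T) (k : ℕ) :
    ∃ t : ℝ, 0 ≤ t ∧ dist (Phi (ph T t)) (Phi a) ≤ (1 / 2 : ℝ) ^ k := by
  obtain ⟨t, ht0, ht1, ht⟩ := Pool.Agent.W654.LQ.Dense.rep_exists a.1
  have hang : ∀ n, ∃ j : ℕ, a.2.2 n = (((t + j) / M n : ℝ) : UnitAddCircle) := by
    intro n
    apply Pool.Agent.W654.LQ.Dense.angle n t ht1
    rw [(ha n).1, ht]
  choose j hj using hang
  obtain ⟨m, hm⟩ := crt j k
  refine ⟨t + m, by positivity, dist_of_eq fun i hi => ?_⟩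
  have hz : (ph T (t + m)).1 = a.1 := by
    change ((t + m : ℝ) : UnitAddCircle) = a.1
    rw [AddCircle.coe_add, coe_nat_cast, add_zero, ht]
  refine crd_congr hz (fun n => ?_) (fun h0 => Or.inl ?_)
  · rw [(ha n).2, ← hz]
    rfl
  · have h1 : i - 1 < k := by omega
    rw [hj (i - 1)]
    change (((t + m) / M (i - 1) : ℝ) : UnitAddCircle) = _
    have h2 := hm (i - 1) h1
    have hM := Pool.Agent.W381.LQ.M_pos (i - 1)
    obtain ⟨c, hc⟩ := Nat.modEq_iff_dvd.1 h2
    rw [← sub_eq_zero, ← AddCircle.coe_sub, AddCircle.coe_eq_zero_iff]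
    refine ⟨-c, ?_⟩
    have hc' : ((j (i - 1) : ℕ) : ℝ) - (m : ℝ) = (M (i - 1) : ℝ) * c := by exact_mod_cast hc
    rw [← sub_div, zsmul_eq_mul, mul_one, eq_div_iff hM.ne']
    push_cast
    linarith

theorem denseRange_pp (T : ℕ → ℕ → Bool) : DenseRange (pp T) := by
  rw [Metric.denseRange_iff]
  rintro ⟨_, a, ha, rfl⟩ r hr
  obtain ⟨k, hk⟩ := exists_pow_lt_of_lt_one hr (show (1 / 2 : ℝ) < 1 by norm_num)
  obtain ⟨t, _, ht⟩ := path_dense T a ha k
  refine ⟨t, ?_⟩
  rw [dist_comm]
  exact lt_of_le_of_lt ht hk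

theorem connectedSpace_XX (T : ℕ → ℕ → Bool) : ConnectedSpace (XX T) := by
  have h1 : PreconnectedSpace (XX T) := (denseRange_pp T).preconnectedSpace (continuous_pp T)
  exact { toPreconnectedSpace := h1, toNonempty := ⟨pp T 0⟩ }

end Pool.Agent.Helper324_LP
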