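import Pool.Agent.Helper324_LP.NonDiv
import Pool.Agent.Helper324_LP.Dim

/-!
# The dimension of the space
-/

set_option autoImplicit false

namespace Pool.Agent.Helper324_LP

open BoundedContinuousFunction Pool.Agent.W361.LQ Topology Set
open Pool.Agent.W952.LP (DimLE)

/-- Finitely many points of the circle have a given norm. -/
theorem norm_finite (y : ℝ) : {z : UnitAddCircle | ‖z‖ = y}.Finite := by
  refine Set.Finite.subset (Set.toFinite {((y : ℝ) : UnitAddCircle), ((-y : ℝ) : UnitAddCircle)}) ?_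
  intro z hz
  obtain ⟨x, hx, hx2⟩ := lift z
  simp only [mem_ofPred_eq] at hz
  rw [hz] at hx2
  simp only [mem_insert_iff, mem_singleton_iff]
  rcases abs_eq (by rw [← hx2]; exact abs_nonneg x) |>.1 hx2 with h | h
  · left; rw [← hx, h]
  · right; rw [← hx, h]

/-- Finitely many points of the circle have a given multiple. -/
theorem root_finite (n : ℕ) (z : UnitAddCircle) : {w : UnitAddCircle | M n • w = z}.Finite := by
  by_cases h : ∃ w0, M n • w0 = z
  · obtain ⟨w0, hw0⟩ := h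
    have h1 := AddCircle.finite_torsion (p := (1 : ℝ)) (n := M n) (Nat.succ_pos _)
    refine Set.Finite.subset (h1.image fun u => u + w0) ?_
    intro w hw
    refine ⟨w - w0, ?_, by simp⟩
    simp only [mem_ofPred_eq] at hw ⊢
    rw [nsmul_sub, hw, hw0, sub_self]
  · push Not at h
    refine Set.Finite.subset Set.finite_empty ?_
    intro w hw
    exact absurd hw (h w)

theorem crd_finite (T : ℕ → ℕ → Bool) (y : ℝ) (i : ℕ) :
    ((fun a : Pm => crd a i) '' {a | a ∈ KK T ∧ ‖a.1‖ = y}).Finite := by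
  have h1 : ({z : UnitAddCircle | ‖z‖ = y} ×ˢ
      ⋃ z ∈ {z : UnitAddCircle | ‖z‖ = y}, {w : UnitAddCircle | M (i - 1) • w = z}).Finite :=
    (norm_finite y).prod ((norm_finite y).biUnion fun z _ => root_finite (i - 1) z)
  refine Set.Finite.subset (h1.image fun p : UnitAddCircle × UnitAddCircle =>
    if i = 0 then co 1 p.1 else ((1 / 2 : ℝ) ^ i) • co (rad T (i - 1) p.1) p.2) ?_
  rintro _ ⟨a, ⟨ha, hy⟩, rfl⟩
  refine ⟨(a.1, a.2.2 (i - 1)), ⟨hy, mem_biUnion (x := a.1) hy (ha (i - 1)).1⟩, ?_⟩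
  simp only [crd]
  split_ifs with h0
  · rfl
  · rw [(ha (i - 1)).2]
    rfl

theorem dim_XX (T : ℕ → ℕ → Bool) : DimLE (XX T) 1 := by
  have : CompactSpace (XX T) := isCompact_iff_compactSpace.1 (isCompact_XX T)
  have hev : ∀ i : ℕ, Continuous fun x : XX T => (x : ℕ →ᵇ ℝ × ℝ × ℝ) i := fun i =>
    (continuous_eval_const (F := ℕ →ᵇ ℝ × ℝ × ℝ) i).comp continuous_subtype_val
  refine dim_le_one (fun x : XX T => ((x : ℕ →ᵇ ℝ × ℝ × ℝ) 0).2.1)
    (continuous_fst.comp (continuous_snd.comp (hev 0))) fun y => ?_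
  intro C hC hpre x hx x' hx'
  apply Subtype.ext
  apply BoundedContinuousFunction.ext
  intro i
  have h1 : ((fun x : XX T => (x : ℕ →ᵇ ℝ × ℝ × ℝ) i) '' C).Finite := by
    refine (crd_finite T y i).subset ?_
    rintro _ ⟨⟨_, a, ha, rfl⟩, hx, rfl⟩
    refine ⟨a, ⟨ha, ?_⟩, rfl⟩
    have h2 := hC hx
    simp only [mem_preimage, mem_singleton_iff, Phi_apply, crd, if_true, co, one_mul] at h2
    exact h2
  have h3 : ((fun x : XX T => (x : ℕ →ᵇ ℝ × ℝ × ℝ) i) '' C).Subsingleton := by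
    have h4 := hpre.image _ (hev i).continuousOn
    exact h1.countable.isTotallyDisconnected _ Subset.rfl h4
  exact h3 (mem_image_of_mem _ hx) (mem_image_of_mem _ hx')

end Pool.Agent.Helper324_LP
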